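import Mathlib
import Pool.Agent.W926.PS.Stm
import Pool.Agent.W926.PS.Base

/-!
# Project PS, part IA: special case I, twelve patterns
-/

set_option autoImplicit false

open Finset W926.PS

namespace Pool.Agent.W247.PS

lemma perm_eq : ∀ π π' : Equiv.Perm (Fin 3), (∀ g h : Fin 3, (π g < π h ↔ π' g < π' h)) → π = π' := by
  decide

theorem exists_key {r a κ : ℕ} {F : Finset (Om r a → ℕ)} (hF : Rich κ F) {X Z : Fin 3 → Om r a}
    {i j : Fin r} {d e : Fin a} (hI : CaseI X Z i j d e) (s : Bool) (π : Equiv.Perm (Fin 3)) :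
    ∃ key ∈ F, (∀ g h, (key (X g) < key (Z h) ↔ s = true)) ∧
      (∀ g h, (key (X g) < key (X h) ↔ π g < π h)) ∧ (∀ g h, (key (Z g) < key (Z h) ↔ π g < π h)) := by
  classical
  obtain ⟨W, hW⟩ : ∃ W : Fin r × (Fin a → Bool) → Fin 3, ∀ v, W v =
      if v.1 = i then (if v.2 = X 0 i then (if s then 0 else 1) else (if s then 1 else 0)) else
        (if v.2 = X 0 j ∨ v.2 = Z 0 j then π 0 else if v.2 = X 1 j ∨ v.2 = Z 1 j then π 1 else π 2) :=
    ⟨_, fun v => rfl⟩
  obtain ⟨S, hS⟩ : ∃ S : Finset (Fin r × (Fin a → Bool)), S = ({(i, X 0 i), (i, Z 0 i)} : Finset _) ∪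
      (univ.image (fun g : Fin 3 => (j, X g j)) ∪ univ.image (fun g : Fin 3 => (j, Z g j))) := ⟨_, rfl⟩
  have hc : S.card ≤ 9 := by
    rw [hS]
    refine (card_union_le _ _).trans ?_
    have h1 : ({(i, X 0 i), (i, Z 0 i)} : Finset (Fin r × (Fin a → Bool))).card ≤ 2 := card_le_two
    have h2 : (univ.image (fun g : Fin 3 => (j, X g j)) ∪ univ.image (fun g : Fin 3 => (j, Z g j))).card ≤ 3 + 3 := by
      refine (card_union_le _ _).trans (add_le_add ?_ ?_)
      · exact card_image_le.trans (by simp)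
      · exact card_image_le.trans (by simp)
    omega
  obtain ⟨key, hk, W', hW', hkey⟩ := hF.wt S hc W
  have hij : i ≠ j := hI.ij.ne
  have m1 : (i, X 0 i) ∈ S := by rw [hS]; simp
  have m2 : (i, Z 0 i) ∈ S := by rw [hS]; simp
  have m3 : ∀ g, (j, X g j) ∈ S := by intro g; rw [hS]; simp
  have m4 : ∀ g, (j, Z g j) ∈ S := by intro g; rw [hS]; simp
  have w1 : W' (i, X 0 i) = if s then 0 else 1 := by
    rw [hW' _ m1, hW]; simp
  have w2 : W' (i, Z 0 i) = if s then 1 else 0 := by
    rw [hW' _ m2, hW]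
    simp only [if_true]
    rw [if_neg (fun h => hI.differ h.symm)]
  have n10 : X 1 j ≠ X 0 j := fun h => by
    have := congrFun h e
    rw [hI.ate.1, hI.ate.2.2.1] at this
    exact absurd this (by simp)
  have n10' : X 1 j ≠ Z 0 j := fun h => by
    have := congrFun h e
    rw [hI.ate.2.1, hI.ate.2.2.1] at this
    exact absurd this (by simp)
  have n10z : Z 1 j ≠ X 0 j := fun h => by
    have := congrFun h e
    rw [hI.ate.1, hI.ate.2.2.2] at this
    exact absurd this (by simp)
  have n10z' : Z 1 j ≠ Z 0 j := fun h => by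
    have := congrFun h e
    rw [hI.ate.2.1, hI.ate.2.2.2] at this
    exact absurd this (by simp)
  obtain ⟨a1, a2, a3, a4, a5⟩ := hI.atd
  have n20 : X 2 j ≠ X 0 j := fun h => a4 (congrFun h d)
  have n20' : X 2 j ≠ Z 0 j := fun h => a4 ((congrFun h d).trans a2)
  have n21 : X 2 j ≠ X 1 j := fun h => a4 ((congrFun h d).trans a1)
  have n21' : X 2 j ≠ Z 1 j := fun h => a4 ((congrFun h d).trans a3)
  have n20z : Z 2 j ≠ X 0 j := fun h => a5 (congrFun h d)
  have n20z' : Z 2 j ≠ Z 0 j := fun h => a5 ((congrFun h d).trans a2)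
  have n21z : Z 2 j ≠ X 1 j := fun h => a5 ((congrFun h d).trans a1)
  have n21z' : Z 2 j ≠ Z 1 j := fun h => a5 ((congrFun h d).trans a3)
  have w3 : ∀ g, W' (j, X g j) = π g := by
    intro g
    rw [hW' _ (m3 g), hW, if_neg hij.symm]
    fin_cases g
    · simp
    · simp [n10, n10']
    · simp [n20, n20', n21, n21']
  have w4 : ∀ g, W' (j, Z g j) = π g := by
    intro g
    rw [hW' _ (m4 g), hW, if_neg hij.symm]
    fin_cases g
    · simp
    · simp [n10z, n10z']
    · simp [n20z, n20z', n21z, n21z']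
  refine ⟨key, hk, ?_, ?_, ?_⟩
  · intro g h
    have e1 : X g i = X 0 i := hI.xx i hI.ij g
    have e2 : Z h i = Z 0 i := hI.zz i hI.ij h
    have e3 : ∀ b, b < i → X g b = Z h b := fun b hb => by
      rw [hI.xx b (hb.trans hI.ij) g, hI.agree b hb, hI.zz b (hb.trans hI.ij) h]
    cases s with
    | true =>
      simp only [iff_true]
      apply hkey (X g) (Z h) i e3
      rw [e1, e2, w1, w2]
      simp
    | false =>
      simp only [Bool.false_eq_true, iff_false, not_lt]
      apply le_of_lt
      apply hkey (Z h) (X g) i (fun b hb => (e3 b hb).symm)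
      rw [e1, e2, w1, w2]
      simp
  · have key1 : ∀ g h, π g < π h → key (X g) < key (X h) := by
      intro g h hlt
      apply hkey (X g) (X h) j
      · intro b hb
        rw [hI.xx b hb g, hI.xx b hb h]
      · rw [w3, w3]
        exact hlt
    intro g h
    constructor
    · intro hlt
      by_contra hn
      rcases lt_or_eq_of_le (not_lt.1 hn) with h1 | h1
      · exact absurd (key1 h g h1) (by omega)
      · rw [π.injective h1] at hlt
        exact lt_irrefl _ hlt
    · exact key1 g h
  · have key1 : ∀ g h, π g < π h → key (Z g) < key (Z h) := by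
      intro g h hlt
      apply hkey (Z g) (Z h) j
      · intro b hb
        rw [hI.zz b hb g, hI.zz b hb h]
      · rw [w4, w4]
        exact hlt
    intro g h
    constructor
    · intro hlt
      by_contra hn
      rcases lt_or_eq_of_le (not_lt.1 hn) with h1 | h1
      · exact absurd (key1 h g h1) (by omega)
      · rw [π.injective h1] at hlt
        exact lt_irrefl _ hlt
    · exact key1 g h

theorem ia : S_IA := by
  intro r a κ F hF X Z i j d e hI
  choose k hk1 hk2 hk3 hk4 using fun s : Bool × Equiv.Perm (Fin 3) => exists_key hF hI s.1 s.2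
  have h := le_nq F (AI X Z) (six X Z) k hk1 ?_ ?_
  · have hc : Fintype.card (Bool × Equiv.Perm (Fin 3)) = 12 := by
      rw [Fintype.card_prod, Fintype.card_perm]
      rfl
    rw [hc] at h
    exact h
  · intro s
    refine ⟨?_, ?_, ?_⟩
    · unfold Blk
      simp only [hk2]
      tauto
    · unfold Blk
      simp only [hk2]
      tauto
    · intro g h
      rw [hk3, hk4]
  · intro s t hst
    have h1 := ipat_lt hst 0 3
    have e1 : (k s (X 0) < k s (Z 0) ↔ k t (X 0) < k t (Z 0)) := h1
    rw [hk2, hk2] at e1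
    have h2 : ∀ g h : Fin 3, (s.2 g < s.2 h ↔ t.2 g < t.2 h) := by
      intro g h
      rw [← hk3 s, ← hk3 t]
      have h3 := ipat_lt hst (Fin.castLE (by norm_num) g) (Fin.castLE (by norm_num) h)
      fin_cases g <;> fin_cases h <;> exact h3
    apply Prod.ext
    · rcases Bool.eq_false_or_eq_true s.1 with h5 | h5 <;> rcases Bool.eq_false_or_eq_true t.1 with h6 | h6 <;>
        simp_all
    · exact perm_eq _ _ h2

end Pool.Agent.W247.PS

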